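import Mathlib
import Pool.Agent.V11187.TriangleInt
import Pool.Agent.V11187.FlotationDefs

/-!
The body of flotation and the body of buoyancy of an affinely regular hexagon are homothetic for
the volume cut off by a short diagonal.
-/

open MeasureTheory Set Metric Module Pool.Agent.V11187.Flotation Pool.Agent.V11187.TriangleInt

set_option linter.unusedSimpArgs false

namespace Pool.Agent.Results.MP_56fddc_gt.Hexagon

/-- The Euclidean plane. -/
abbrev E2 : Type := EuclideanSpace ℝ (Fin 2)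

/-- The point with given coordinates. -/
noncomputable def pt (a b : ℝ) : E2 := !₂[a, b]

@[simp] theorem pt0 (a b : ℝ) : pt a b 0 = a := by simp [pt]
@[simp] theorem pt1 (a b : ℝ) : pt a b 1 = b := by simp [pt]

theorem ext2 {x y : E2} (h0 : x 0 = y 0) (h1 : x 1 = y 1) : x = y := by
  ext i
  fin_cases i <;> assumption

theorem inner2 (x y : E2) : inner ℝ x y = x 0 * y 0 + x 1 * y 1 := by
  rw [PiLp.inner_apply, Fin.sum_univ_two]
  simp only [RCLike.inner_apply, conj_trivial]
  ring

/-- The hexagon. -/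
def K0 : Set E2 := {x | |x 0| ≤ 1 ∧ |x 1| ≤ 1 ∧ |x 0 + x 1| ≤ 1}

theorem K0_closed : IsClosed K0 := by
  have h1 : IsClosed {x : E2 | |x 0| ≤ 1} := isClosed_le (by fun_prop) continuous_const
  have h2 : IsClosed {x : E2 | |x 1| ≤ 1} := isClosed_le (by fun_prop) continuous_const
  have h3 : IsClosed {x : E2 | |x 0 + x 1| ≤ 1} := isClosed_le (by fun_prop) continuous_const
  exact h1.inter (h2.inter h3)

theorem K0_compact : IsCompact K0 := by
  refine (isCompact_closedBall (0 : E2) 2).of_isClosed_subset K0_closed ?_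
  intro x hx
  rw [mem_closedBall_zero_iff]
  have h : ‖x‖ ^ 2 ≤ 2 ^ 2 := by
    rw [← real_inner_self_eq_norm_sq, inner2]
    have h0 := abs_le.mp hx.1
    have h1 := abs_le.mp hx.2.1
    nlinarith
  exact (pow_le_pow_iff_left₀ (norm_nonneg x) (by norm_num) (by norm_num)).mp h

theorem K0_convex : Convex ℝ K0 := by
  intro x hx y hy a b ha hb hab
  obtain ⟨h1, h2, h3⟩ := hx
  obtain ⟨k1, k2, k3⟩ := hy
  rw [abs_le] at h1 h2 h3 k1 k2 k3
  refine ⟨?_, ?_, ?_⟩ <;> simp only [PiLp.add_apply, PiLp.smul_apply, smul_eq_mul] <;>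
    rw [abs_le] <;> constructor <;> nlinarith

theorem K0_interior : (0 : E2) ∈ interior K0 := by
  refine interior_maximal (t := {x : E2 | |x 0| < 1 / 2} ∩ {x : E2 | |x 1| < 1 / 2}) ?_ ?_ ?_
  · rintro x ⟨h0, h1⟩
    simp only [mem_ofPred_eq] at h0 h1
    rw [abs_lt] at h0 h1
    refine ⟨?_, ?_, ?_⟩ <;> rw [abs_le] <;> constructor <;> linarith
  · exact (isOpen_lt (by fun_prop) continuous_const).inter
      (isOpen_lt (by fun_prop) continuous_const)
  · constructor <;> simp

theorem K0_body : IsConvexBody K0 := ⟨K0_compact, K0_convex, ⟨0, K0_interior⟩⟩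

/-! ### The hexagon is not an ellipse -/

theorem K0_not_ellipsoid : ¬ IsEllipsoid K0 := by
  rintro ⟨T, hK⟩
  have hp : pt 1 0 ∈ K0 := by simp [K0]
  have hq : pt 1 (-1) ∈ K0 := by simp [K0]
  rw [hK] at hp hq
  obtain ⟨x, hx, hxp⟩ := hp
  obtain ⟨y, hy, hyq⟩ := hq
  rw [mem_closedBall_zero_iff] at hx hy
  have hxy : x ≠ y := by
    intro h
    rw [h, hyq] at hxp
    have := congrArg (fun z : E2 => z 1) hxp
    simp at this
  have hT : ∀ x, T x = T.linear x + T 0 := by
    intro x
    have := T.map_vadd 0 x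
    simpa using this
  obtain ⟨w, hw⟩ : ∃ w : E2, w = (1 / 2 : ℝ) • (x + y) := ⟨_, rfl⟩
  have hwn : ‖w‖ < 1 := by
    have h1 := parallelogram_law_with_norm ℝ x y
    have h2 : 0 < ‖x - y‖ := norm_pos_iff.mpr (sub_ne_zero.mpr hxy)
    have h3 : ‖w‖ = 1 / 2 * ‖x + y‖ := by
      rw [hw, norm_smul, Real.norm_of_nonneg (by norm_num)]
    have h4 := norm_nonneg (x + y)
    have h5 := norm_nonneg x
    have h6 := norm_nonneg y
    rw [h3]
    nlinarith
  have hTw : (T w) 0 = 1 := by
    have e : T w = (1 / 2 : ℝ) • (T x + T y) := by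
      rw [hT w, hT x, hT y, hw, map_smul, map_add]
      module
    rw [e, hxp, hyq]
    simp
    norm_num
  -- move in a direction increasing the first coordinate
  obtain ⟨v, hv⟩ : ∃ v : E2, v = T.linear.symm (pt 1 0) := ⟨_, rfl⟩
  have hv0 : v ≠ 0 := by
    intro h
    have h1 : T.linear v = 0 := by rw [h, map_zero]
    rw [hv, LinearEquiv.apply_symm_apply] at h1
    have := congrArg (fun z : E2 => z 0) h1
    simp at this
  have hvn : 0 < ‖v‖ := norm_pos_iff.mpr hv0
  set ε := (1 - ‖w‖) / ‖v‖ with hε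
  have hεpos : 0 < ε := div_pos (by linarith) hvn
  have hmem : w + ε • v ∈ closedBall (0 : E2) 1 := by
    rw [mem_closedBall_zero_iff]
    calc ‖w + ε • v‖ ≤ ‖w‖ + ‖ε • v‖ := norm_add_le _ _
      _ = ‖w‖ + ε * ‖v‖ := by rw [norm_smul, Real.norm_of_nonneg hεpos.le]
      _ = 1 := by rw [hε, div_mul_cancel₀ _ hvn.ne']; ring
      _ ≤ 1 := le_rfl
  have hmemK : T (w + ε • v) ∈ K0 := by rw [hK]; exact ⟨_, hmem, rfl⟩
  have e2 : T (w + ε • v) = T w + ε • pt 1 0 := by
    rw [hT (w + ε • v), hT w, map_add, map_smul, hv, LinearEquiv.apply_symm_apply]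
    abel
  rw [e2] at hmemK
  have h7 := (abs_le.mp hmemK.1).2
  simp only [PiLp.add_apply, PiLp.smul_apply, smul_eq_mul, pt0, hTw] at h7
  linarith

/-! ### The region and its boundary arcs -/

/-- The region bounded by the envelope of the chords. -/
def R0 : Set E2 := {x | x ∈ K0 ∧ 1 / 2 ≤ (1 + x 0) * (1 + x 1) ∧
  1 / 2 ≤ (1 + x 1) * (1 - x 0 - x 1) ∧ 1 / 2 ≤ (1 - x 0 - x 1) * (1 + x 0) ∧
  1 / 2 ≤ (1 - x 0) * (1 - x 1) ∧ 1 / 2 ≤ (1 - x 1) * (1 + x 0 + x 1) ∧
  1 / 2 ≤ (1 + x 0 + x 1) * (1 - x 0)}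

/-- The envelope. -/
def M0 : Set E2 := {x | x ∈ R0 ∧ ((1 + x 0) * (1 + x 1) = 1 / 2 ∨
  (1 + x 1) * (1 - x 0 - x 1) = 1 / 2 ∨ (1 - x 0 - x 1) * (1 + x 0) = 1 / 2 ∨
  (1 - x 0) * (1 - x 1) = 1 / 2 ∨ (1 - x 1) * (1 + x 0 + x 1) = 1 / 2 ∨
  (1 + x 0 + x 1) * (1 - x 0) = 1 / 2)}

theorem R0_closed : IsClosed R0 := by
  have h1 : IsClosed {x : E2 | 1 / 2 ≤ (1 + x 0) * (1 + x 1)} :=
    isClosed_le continuous_const (by fun_prop)
  have h2 : IsClosed {x : E2 | 1 / 2 ≤ (1 + x 1) * (1 - x 0 - x 1)} :=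
    isClosed_le continuous_const (by fun_prop)
  have h3 : IsClosed {x : E2 | 1 / 2 ≤ (1 - x 0 - x 1) * (1 + x 0)} :=
    isClosed_le continuous_const (by fun_prop)
  have h4 : IsClosed {x : E2 | 1 / 2 ≤ (1 - x 0) * (1 - x 1)} :=
    isClosed_le continuous_const (by fun_prop)
  have h5 : IsClosed {x : E2 | 1 / 2 ≤ (1 - x 1) * (1 + x 0 + x 1)} :=
    isClosed_le continuous_const (by fun_prop)
  have h6 : IsClosed {x : E2 | 1 / 2 ≤ (1 + x 0 + x 1) * (1 - x 0)} :=
    isClosed_le continuous_const (by fun_prop)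
  exact K0_closed.inter (h1.inter (h2.inter (h3.inter (h4.inter (h5.inter h6)))))

theorem M0_compact : IsCompact M0 := by
  refine K0_compact.of_isClosed_subset ?_ (fun x hx => hx.1.1)
  have h1 : IsClosed {x : E2 | (1 + x 0) * (1 + x 1) = 1 / 2} :=
    isClosed_eq (by fun_prop) continuous_const
  have h2 : IsClosed {x : E2 | (1 + x 1) * (1 - x 0 - x 1) = 1 / 2} :=
    isClosed_eq (by fun_prop) continuous_const
  have h3 : IsClosed {x : E2 | (1 - x 0 - x 1) * (1 + x 0) = 1 / 2} :=
    isClosed_eq (by fun_prop) continuous_const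
  have h4 : IsClosed {x : E2 | (1 - x 0) * (1 - x 1) = 1 / 2} :=
    isClosed_eq (by fun_prop) continuous_const
  have h5 : IsClosed {x : E2 | (1 - x 1) * (1 + x 0 + x 1) = 1 / 2} :=
    isClosed_eq (by fun_prop) continuous_const
  have h6 : IsClosed {x : E2 | (1 + x 0 + x 1) * (1 - x 0) = 1 / 2} :=
    isClosed_eq (by fun_prop) continuous_const
  exact R0_closed.inter (h1.union (h2.union (h3.union (h4.union (h5.union h6)))))

/-- The linear symmetry of order six. -/
noncomputable def S : E2 ≃L[ℝ] E2 := LinearEquiv.toContinuousLinearEquiv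
  { toFun := fun x => pt (x 0 + x 1) (-x 0)
    invFun := fun x => pt (-x 1) (x 0 + x 1)
    map_add' := by
      intro x y
      apply ext2 <;> simp <;> ring
    map_smul' := by
      intro c x
      apply ext2 <;> simp <;> ring
    left_inv := by
      intro x
      apply ext2 <;> simp
    right_inv := by
      intro x
      apply ext2 <;> simp }

theorem S_apply (x : E2) : S x = pt (x 0 + x 1) (-x 0) := rfl

theorem S_symm_apply (x : E2) : S.symm x = pt (-x 1) (x 0 + x 1) := rfl

theorem S_K0 {x : E2} (hx : x ∈ K0) : S x ∈ K0 := by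
  rw [S_apply]
  refine ⟨?_, ?_, ?_⟩
  · simpa using hx.2.2
  · simpa using hx.1
  · simpa using hx.2.1

theorem S_symm_K0 {x : E2} (hx : x ∈ K0) : S.symm x ∈ K0 := by
  rw [S_symm_apply]
  refine ⟨?_, ?_, ?_⟩
  · simpa using hx.2.1
  · simpa using hx.2.2
  · simpa using hx.1

theorem S_R0 {x : E2} (hx : x ∈ R0) : S x ∈ R0 := by
  obtain ⟨h0, h1, h2, h3, h4, h5, h6⟩ := hx
  refine ⟨S_K0 h0, ?_⟩
  rw [S_apply]
  simp only [pt0, pt1]
  refine ⟨?_, ?_, ?_, ?_, ?_, ?_⟩ <;> linarith

theorem S_symm_R0 {x : E2} (hx : x ∈ R0) : S.symm x ∈ R0 := by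
  obtain ⟨h0, h1, h2, h3, h4, h5, h6⟩ := hx
  refine ⟨S_symm_K0 h0, ?_⟩
  rw [S_symm_apply]
  simp only [pt0, pt1]
  refine ⟨?_, ?_, ?_, ?_, ?_, ?_⟩ <;> linarith

theorem S_M0 {x : E2} (hx : x ∈ M0) : S x ∈ M0 := by
  refine ⟨S_R0 hx.1, ?_⟩
  rw [S_apply]
  simp only [pt0, pt1]
  rcases hx.2 with h | h | h | h | h | h
  · right; right; right; right; left; linarith
  · right; right; right; right; right; linarith
  · right; right; right; left; linarith
  · right; left; linarith
  · right; right; left; linarith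
  · left; linarith

/-! ### Measure preservation -/

theorem S_det : LinearMap.det ((S : E2 ≃L[ℝ] E2) : E2 →ₗ[ℝ] E2) = 1 := by
  rw [← LinearMap.det_toMatrix (EuclideanSpace.basisFun (Fin 2) ℝ).toBasis, Matrix.det_fin_two]
  simp [LinearMap.toMatrix_apply, S_apply]

theorem S_mp : MeasurePreserving (S : E2 → E2) volume volume := by
  refine ⟨S.continuous.measurable, ?_⟩
  have h := Measure.map_linearMap_addHaar_eq_smul_addHaar (μ := (volume : Measure E2))
    (f := ((S : E2 ≃L[ℝ] E2) : E2 →ₗ[ℝ] E2)) (by rw [S_det]; exact one_ne_zero)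
  rw [S_det] at h
  simpa using h

/-- Coordinates of the plane centred at a corner. -/
noncomputable def Φ (x : E2) : ℝ × ℝ := (x 0 + 1, x 1 + 1)

theorem Φ_mp : MeasurePreserving Φ volume volume := by
  have h1 : MeasurePreserving (@WithLp.ofLp 2 (Fin 2 → ℝ)) volume volume :=
    PiLp.volume_preserving_ofLp (Fin 2)
  have h2 := volume_preserving_finTwoArrow ℝ
  have h3 : MeasurePreserving (fun p : ℝ × ℝ => p + (1, 1)) volume volume :=
    measurePreserving_add_right volume (1, 1)
  exact h3.comp (h2.comp h1)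

theorem Φ_emb : MeasurableEmbedding Φ := by
  let e : E2 ≃ₜ ℝ × ℝ :=
    { toFun := Φ
      invFun := fun p => pt (p.1 - 1) (p.2 - 1)
      left_inv := by intro x; apply ext2 <;> simp [Φ]
      right_inv := by intro p; simp [Φ]
      continuous_toFun := by unfold Φ; fun_prop
      continuous_invFun := by unfold pt; fun_prop }
  exact e.measurableEmbedding

/-- The cap in the coordinates. -/
def capR (a b : ℝ) : Set (ℝ × ℝ) :=
  {p | 0 ≤ p.1 ∧ 0 ≤ p.2 ∧ 1 ≤ p.1 + p.2 ∧ b * p.1 + a * p.2 ≤ a * b}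

theorem line_null : (volume : Measure (ℝ × ℝ)) {p | p.1 + p.2 = 1} = 0 := by
  rw [Measure.volume_eq_prod, Measure.measure_prod_null]
  · refine Filter.Eventually.of_forall fun x => ?_
    have : Prod.mk x ⁻¹' {p : ℝ × ℝ | p.1 + p.2 = 1} = {1 - x} := by
      ext y
      simp only [mem_preimage, mem_ofPred_eq, mem_singleton_iff]
      constructor <;> intro h <;> linarith
    simp only [this]
    simp
  · exact (isClosed_eq (by fun_prop) continuous_const).measurableSet

theorem tri_one_sub {a b : ℝ} (ha : 1 ≤ a) (hb : 1 ≤ b) : tri 1 1 ⊆ tri a b := by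
  rintro ⟨x, y⟩ ⟨h1, h2, h3⟩
  simp only at h1 h2 h3
  refine ⟨h1, h2, ?_⟩
  simp only
  nlinarith [mul_nonneg (sub_nonneg.mpr ha) h1, mul_nonneg (sub_nonneg.mpr hb) h2,
    mul_nonneg (sub_nonneg.mpr ha) (sub_nonneg.mpr hb)]

theorem capR_ae (a b : ℝ) :
    capR a b =ᵐ[(volume : Measure (ℝ × ℝ))] (tri a b \ tri 1 1 : Set (ℝ × ℝ)) := by
  rw [ae_eq_set]
  constructor
  · refine measure_mono_null ?_ line_null
    rintro ⟨x, y⟩ ⟨⟨h1, h2, h3, h4⟩, h5⟩
    simp only at h1 h2 h3 h4
    have h6 : (x, y) ∈ tri 1 1 := by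
      by_contra hcon
      exact h5 ⟨⟨h1, h2, h4⟩, hcon⟩
    have h7 := h6.2.2
    simp only at h7
    simp only [mem_ofPred_eq]
    linarith
  · refine measure_mono_null ?_ line_null
    rintro ⟨x, y⟩ ⟨⟨⟨h1, h2, h3⟩, h4⟩, h5⟩
    exfalso
    apply h5
    refine ⟨h1, h2, ?_, h3⟩
    by_contra hcon
    apply h4
    refine ⟨h1, h2, ?_⟩
    simp only at hcon ⊢
    linarith

theorem capR_integral {a b : ℝ} (ha : 1 ≤ a) (hb : 1 ≤ b) (f : ℝ × ℝ → ℝ) (hf : Continuous f) :
    (∫ p in capR a b, f p) = (∫ p in tri a b, f p) - ∫ p in tri 1 1, f p := by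
  rw [setIntegral_congr_set (capR_ae a b)]
  exact setIntegral_sdiff (tri_closed 1 1).measurableSet
    (hf.continuousOn.integrableOn_compact (tri_compact (by linarith) (by linarith)))
    (tri_one_sub ha hb)

/-! ### The basic relation between a direction and the midpoint of its chord -/

/-- `m` is the midpoint of the chord of flotation in the direction `u`. -/
structure Rel (u m : E2) : Prop where
  ne : u ≠ 0
  mem : m ∈ M0
  vol : volume (K0 ∩ halfSpace u (inner ℝ u m)) = ENNReal.ofReal (1 / 2)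
  cen : centroid (K0 ∩ halfSpace u (inner ℝ u m)) = (4 / 3 : ℝ) • m
  sup : ∀ x ∈ R0, inner ℝ u x ≤ inner ℝ u m

theorem halfSpace_closed (u : E2) (t : ℝ) : IsClosed (halfSpace u t) :=
  isClosed_le continuous_const (by fun_prop)

theorem base_mem {a b : ℝ} (hab : a * b = 2) (ha : 1 ≤ a) (hb : 1 ≤ b) :
    pt (a / 2 - 1) (b / 2 - 1) ∈ M0 := by
  have ha2 : a ≤ 2 := by nlinarith
  have hb2 : b ≤ 2 := by nlinarith
  have hsum : a + b ≤ 3 := by nlinarith [mul_nonneg (sub_nonneg.mpr ha) (sub_nonneg.mpr hb)]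
  have hsum2 : 8 ≤ (a + b) ^ 2 := by nlinarith [sq_nonneg (a - b)]
  have hsum3 : 2 ≤ a + b := by linarith
  refine ⟨⟨⟨?_, ?_, ?_⟩, ?_, ?_, ?_, ?_, ?_, ?_⟩, ?_⟩ <;> simp only [pt0, pt1]
  · rw [abs_le]; constructor <;> linarith
  · rw [abs_le]; constructor <;> linarith
  · rw [abs_le]; constructor <;> linarith
  · nlinarith
  · nlinarith
  · nlinarith
  · nlinarith
  · -- `(4 - b) (a + b - 2) ≥ 2`
    have h1 : 0 ≤ (2 - b) ^ 3 := by
      have : 0 ≤ 2 - b := by linarith
      positivity
    have h2 : b * ((4 - b) * (a + b - 2) - 2) = (2 - b) ^ 3 := by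
      linear_combination (4 - b) * hab
    have h3 : 0 ≤ (4 - b) * (a + b - 2) - 2 := by
      by_contra hcon
      push Not at hcon
      have : b * ((4 - b) * (a + b - 2) - 2) < 0 := by nlinarith
      linarith
    nlinarith
  · have h1 : 0 ≤ (2 - a) ^ 3 := by
      have : 0 ≤ 2 - a := by linarith
      positivity
    have h2 : a * ((4 - a) * (a + b - 2) - 2) = (2 - a) ^ 3 := by
      linear_combination (4 - a) * hab
    have h3 : 0 ≤ (4 - a) * (a + b - 2) - 2 := by
      by_contra hcon
      push Not at hcon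
      have : a * ((4 - a) * (a + b - 2) - 2) < 0 := by nlinarith
      linarith
    nlinarith
  · left
    nlinarith

theorem base_cap {a b lam : ℝ} (hab : a * b = 2) (ha : 1 ≤ a) (hb : 1 ≤ b) (hlam : 0 < lam) :
    K0 ∩ halfSpace (pt (-(lam * b)) (-(lam * a)))
      (inner ℝ (pt (-(lam * b)) (-(lam * a))) (pt (a / 2 - 1) (b / 2 - 1))) =
      Φ ⁻¹' capR a b := by
  have ha2 : a ≤ 2 := by nlinarith
  have hb2 : b ≤ 2 := by nlinarith
  ext x
  simp only [mem_inter_iff, halfSpace, mem_ofPred_eq, mem_preimage, capR, Φ, inner2, pt0, pt1]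
  have key : (-(lam * b) * (a / 2 - 1) + -(lam * a) * (b / 2 - 1) ≤
      -(lam * b) * x 0 + -(lam * a) * x 1) ↔ b * (x 0 + 1) + a * (x 1 + 1) ≤ a * b := by
    have e : -(lam * b) * x 0 + -(lam * a) * x 1 -
        (-(lam * b) * (a / 2 - 1) + -(lam * a) * (b / 2 - 1)) =
        lam * (a * b - (b * (x 0 + 1) + a * (x 1 + 1))) := by ring
    constructor
    · intro h
      have h1 : 0 ≤ lam * (a * b - (b * (x 0 + 1) + a * (x 1 + 1))) := by linarith
      have h2 := (mul_nonneg_iff_of_pos_left hlam).mp h1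
      linarith
    · intro h
      have h1 : 0 ≤ lam * (a * b - (b * (x 0 + 1) + a * (x 1 + 1))) :=
        mul_nonneg hlam.le (by linarith)
      linarith
  rw [key]
  constructor
  · rintro ⟨⟨h0, h1, h2⟩, h3⟩
    rw [abs_le] at h0 h1 h2
    exact ⟨by linarith, by linarith, by linarith, h3⟩
  · rintro ⟨h0, h1, h2, h3⟩
    refine ⟨⟨?_, ?_, ?_⟩, h3⟩
    · rw [abs_le]
      constructor
      · linarith
      · nlinarith
    · rw [abs_le]
      constructor
      · linarith
      · nlinarith
    · rw [abs_le]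
      constructor
      · linarith
      · nlinarith

theorem capR_compact {a b : ℝ} (ha : 0 < a) (hb : 0 < b) : IsCompact (capR a b) := by
  refine (tri_compact ha hb).of_isClosed_subset ?_ (fun p hp => ⟨hp.1, hp.2.1, hp.2.2.2⟩)
  have h1 : IsClosed {p : ℝ × ℝ | 0 ≤ p.1} := isClosed_le continuous_const (by fun_prop)
  have h2 : IsClosed {p : ℝ × ℝ | 0 ≤ p.2} := isClosed_le continuous_const (by fun_prop)
  have h3 : IsClosed {p : ℝ × ℝ | 1 ≤ p.1 + p.2} := isClosed_le continuous_const (by fun_prop)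
  have h4 : IsClosed {p : ℝ × ℝ | b * p.1 + a * p.2 ≤ a * b} :=
    isClosed_le (by fun_prop) continuous_const
  exact h1.inter (h2.inter (h3.inter h4))

theorem capR_vol {a b : ℝ} (hab : a * b = 2) (ha : 1 ≤ a) (hb : 1 ≤ b) :
    volume (capR a b) = ENNReal.ofReal (1 / 2) := by
  have h := capR_integral ha hb (fun _ => (1 : ℝ)) continuous_const
  rw [tri_area (by linarith) (by linarith), tri_area one_pos one_pos, hab] at h
  rw [setIntegral_const, smul_eq_mul, mul_one] at h
  have hfin : volume (capR a b) ≠ ⊤ := (capR_compact (by linarith) (by linarith)).measure_ne_top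
  rw [← ENNReal.ofReal_toReal hfin]
  congr 1
  change volume.real (capR a b) = 1 / 2
  rw [h]
  norm_num

theorem base_rel {a b lam : ℝ} (hab : a * b = 2) (ha : 1 ≤ a) (hb : 1 ≤ b) (hlam : 0 < lam) :
    Rel (pt (-(lam * b)) (-(lam * a))) (pt (a / 2 - 1) (b / 2 - 1)) := by
  have hcap := base_cap hab ha hb hlam
  have hvol : volume (Φ ⁻¹' capR a b) = ENNReal.ofReal (1 / 2) := by
    rw [Φ_mp.measure_preimage (capR_compact (by linarith) (by linarith)).measurableSet.nullMeasurableSet,
      capR_vol hab ha hb]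
  refine ⟨?_, base_mem hab ha hb, ?_, ?_, ?_⟩
  · intro h
    have h1 : pt (-(lam * b)) (-(lam * a)) 0 = 0 := by rw [h]; rfl
    rw [pt0] at h1
    have : 0 < lam * b := by positivity
    linarith
  · rw [hcap, hvol]
  · rw [hcap]
    unfold centroid
    have hreal : volume.real (Φ ⁻¹' capR a b) = 1 / 2 := by
      unfold Measure.real
      rw [hvol, ENNReal.toReal_ofReal (by norm_num)]
    rw [setAverage_eq, hreal]
    -- compactness of the cap
    have hcompact : IsCompact (Φ ⁻¹' capR a b) := by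
      rw [← hcap]
      exact K0_compact.inter_right (halfSpace_closed _ _)
    have hint : IntegrableOn (fun x : E2 => x) (Φ ⁻¹' capR a b) volume :=
      continuousOn_id.integrableOn_compact hcompact
    have hcoord : ∀ i : Fin 2, (∫ x in Φ ⁻¹' capR a b, x) i = ∫ x in Φ ⁻¹' capR a b, x i := by
      intro i
      have := (EuclideanSpace.proj (𝕜 := ℝ) i).integral_comp_comm
        (μ := (volume : Measure E2).restrict (Φ ⁻¹' capR a b)) (φ := fun x : E2 => x) hint
      exact this.symm
    have h0 : (∫ x in Φ ⁻¹' capR a b, x 0) = ∫ p in capR a b, (p.1 - 1) := by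
      have := Φ_mp.setIntegral_preimage_emb Φ_emb (fun p : ℝ × ℝ => p.1 - 1) (capR a b)
      rw [← this]
      congr 1
      funext x
      simp [Φ]
    have h1 : (∫ x in Φ ⁻¹' capR a b, x 1) = ∫ p in capR a b, (p.2 - 1) := by
      have := Φ_mp.setIntegral_preimage_emb Φ_emb (fun p : ℝ × ℝ => p.2 - 1) (capR a b)
      rw [← this]
      congr 1
      funext x
      simp [Φ]
    have hapos : 0 < a := by linarith
    have hbpos : 0 < b := by linarith
    have hIone : (∫ _p in capR a b, (1 : ℝ)) = 1 / 2 := by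
      rw [capR_integral ha hb _ continuous_const, tri_area hapos hbpos,
        tri_area one_pos one_pos, hab]
      norm_num
    have hc : IsCompact (capR a b) := capR_compact hapos hbpos
    have i1 : IntegrableOn (fun p : ℝ × ℝ => p.1) (capR a b) volume :=
      continuous_fst.continuousOn.integrableOn_compact hc
    have i2 : IntegrableOn (fun p : ℝ × ℝ => p.2) (capR a b) volume :=
      continuous_snd.continuousOn.integrableOn_compact hc
    have i3 : IntegrableOn (fun _ : ℝ × ℝ => (1 : ℝ)) (capR a b) volume :=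
      continuous_const.continuousOn.integrableOn_compact hc
    have h0' : (∫ x in Φ ⁻¹' capR a b, x 0) = (a - 2) / 3 := by
      rw [h0, integral_sub i1 i3, hIone, capR_integral ha hb _ continuous_fst,
        tri_mom1 hapos hbpos, tri_mom1 one_pos one_pos]
      have : a ^ 2 * b = 2 * a := by rw [sq, mul_assoc, hab]; ring
      rw [this]; ring
    have h1' : (∫ x in Φ ⁻¹' capR a b, x 1) = (b - 2) / 3 := by
      rw [h1, integral_sub i2 i3, hIone, capR_integral ha hb _ continuous_snd,
        tri_mom2 hapos hbpos, tri_mom2 one_pos one_pos]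
      have : a * b ^ 2 = 2 * b := by rw [sq, ← mul_assoc, hab]
      rw [this]; ring
    apply ext2
    · rw [PiLp.smul_apply, hcoord, h0', PiLp.smul_apply, pt0]
      simp only [smul_eq_mul]
      ring
    · rw [PiLp.smul_apply, hcoord, h1', PiLp.smul_apply, pt1]
      simp only [smul_eq_mul]
      ring
  · intro x hx
    obtain ⟨⟨hk0, hk1, hk2⟩, he, _⟩ := hx
    rw [abs_le] at hk0 hk1
    rw [inner2, inner2]
    simp only [pt0, pt1]
    set X := 1 + x 0 with hX
    set Y := 1 + x 1 with hY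
    have hX0 : 0 ≤ X := by linarith
    have hY0 : 0 ≤ Y := by linarith
    have hge : 2 ≤ b * X + a * Y := by
      have h1 : 4 * ((a * b) * (X * Y)) ≤ (b * X + a * Y) ^ 2 := by
        nlinarith [sq_nonneg (b * X - a * Y)]
      rw [hab] at h1
      have h2 : 2 ^ 2 ≤ (b * X + a * Y) ^ 2 := by nlinarith
      have h3 : 0 ≤ b * X + a * Y := by positivity
      exact (pow_le_pow_iff_left₀ (by norm_num) h3 (by norm_num)).mp h2
    have e : (-(lam * b) * (a / 2 - 1) + -(lam * a) * (b / 2 - 1)) -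
        (-(lam * b) * x 0 + -(lam * a) * x 1) = lam * (b * X + a * Y - a * b) := by
      rw [hX, hY]; ring
    have h4 : 0 ≤ lam * (b * X + a * Y - a * b) := mul_nonneg hlam.le (by linarith)
    linarith

/-- Transport of the relation by the symmetry. -/
theorem Rel.rot {u m : E2} (h : Rel u m) : Rel (pt (u 1) (u 1 - u 0)) (S m) := by
  have hin : ∀ x : E2, inner ℝ (pt (u 1) (u 1 - u 0)) (S x) = inner ℝ u x := by
    intro x
    rw [inner2, inner2, S_apply]
    simp only [pt0, pt1]
    ring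
  have hcap : K0 ∩ halfSpace (pt (u 1) (u 1 - u 0)) (inner ℝ (pt (u 1) (u 1 - u 0)) (S m)) =
      S '' (K0 ∩ halfSpace u (inner ℝ u m)) := by
    rw [hin]
    ext y
    constructor
    · rintro ⟨hy, hy2⟩
      refine ⟨S.symm y, ⟨S_symm_K0 hy, ?_⟩, S.apply_symm_apply y⟩
      have h1 := hin (S.symm y)
      rw [S.apply_symm_apply] at h1
      change _ ≤ inner ℝ u (S.symm y)
      rw [← h1]
      exact hy2
    · rintro ⟨x, ⟨hx, hx2⟩, rfl⟩
      refine ⟨S_K0 hx, ?_⟩
      change _ ≤ inner ℝ _ (S x)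
      rw [hin]
      exact hx2
  have hcompact : IsCompact (K0 ∩ halfSpace u (inner ℝ u m)) :=
    K0_compact.inter_right (halfSpace_closed _ _)
  have hemb : MeasurableEmbedding (S : E2 → E2) := S.toHomeomorph.measurableEmbedding
  have hvol : volume (S '' (K0 ∩ halfSpace u (inner ℝ u m))) = ENNReal.ofReal (1 / 2) := by
    rw [← h.vol]
    have h1 := S_mp.measure_preimage_emb hemb (S '' (K0 ∩ halfSpace u (inner ℝ u m)))
    rw [← h1, preimage_image_eq _ S.injective]
  refine ⟨?_, S_M0 h.mem, ?_, ?_, ?_⟩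
  · intro h0
    apply h.ne
    have e0 : pt (u 1) (u 1 - u 0) 0 = 0 := by rw [h0]; rfl
    have e1 : pt (u 1) (u 1 - u 0) 1 = 0 := by rw [h0]; rfl
    rw [pt0] at e0
    rw [pt1] at e1
    apply ext2
    · change u 0 = 0; linarith
    · exact e0
  · rw [hcap, hvol]
  · rw [hcap]
    have hc := h.cen
    unfold centroid at hc ⊢
    rw [setAverage_eq] at hc ⊢
    have e1 : volume.real (S '' (K0 ∩ halfSpace u (inner ℝ u m))) =
        volume.real (K0 ∩ halfSpace u (inner ℝ u m)) := by
      unfold Measure.real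
      rw [hvol, h.vol]
    have e2 : (∫ x in S '' (K0 ∩ halfSpace u (inner ℝ u m)), x) =
        ∫ x in K0 ∩ halfSpace u (inner ℝ u m), S x :=
      S_mp.setIntegral_image_emb hemb (fun x => x) _
    have e3 : (∫ x in K0 ∩ halfSpace u (inner ℝ u m), S x) =
        S (∫ x in K0 ∩ halfSpace u (inner ℝ u m), x) :=
      (S : E2 →L[ℝ] E2).integral_comp_comm (φ := fun x : E2 => x)
        (continuousOn_id.integrableOn_compact hcompact)
    rw [e1, e2, e3, ← map_smul, hc, map_smul]
  · intro x hx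
    have h1 := hin (S.symm x)
    rw [S.apply_symm_apply] at h1
    rw [h1, hin]
    exact h.sup _ (S_symm_R0 hx)

/-- Directions in the basic sector. -/
theorem sector_rel (u : E2) (h1 : 2 * u 1 ≤ u 0) (h2 : 2 * u 0 ≤ u 1) (hu : u ≠ 0) :
    ∃ m, Rel u m := by
  have hp : u 0 < 0 := by
    rcases lt_or_ge (u 0) 0 with h | h
    · exact h
    · exfalso
      have e0 : u 0 = 0 := by linarith
      have e1 : u 1 = 0 := by linarith
      exact hu (ext2 e0 e1)
  have hq : u 1 < 0 := by linarith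
  set P := - u 0 with hP
  set Q := - u 1 with hQ
  have hPpos : 0 < P := by linarith
  have hQpos : 0 < Q := by linarith
  set a := Real.sqrt (2 * Q / P) with ha
  have ha2 : a ^ 2 = 2 * Q / P := Real.sq_sqrt (by positivity)
  have hapos : 0 < a := Real.sqrt_pos.mpr (by positivity)
  have ha1 : 1 ≤ a := by
    have : (1 : ℝ) ^ 2 ≤ a ^ 2 := by
      rw [ha2, one_pow, le_div_iff₀ hPpos]; linarith
    exact (pow_le_pow_iff_left₀ (by norm_num) hapos.le (by norm_num)).mp this
  have ha2' : a ≤ 2 := by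
    have : a ^ 2 ≤ 2 ^ 2 := by
      rw [ha2, div_le_iff₀ hPpos]; linarith
    exact (pow_le_pow_iff_left₀ hapos.le (by norm_num) (by norm_num)).mp this
  have hab : a * (2 / a) = 2 := by field_simp
  have hb1 : 1 ≤ 2 / a := by rw [le_div_iff₀ hapos]; linarith
  have hrel := base_rel hab ha1 hb1 (lam := P * a / 2) (by positivity)
  have e : pt (-(P * a / 2 * (2 / a))) (-(P * a / 2 * a)) = u := by
    apply ext2
    · rw [pt0]
      have : P * a / 2 * (2 / a) = P := by field_simp
      rw [this, hP]; ring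
    · rw [pt1]
      have : P * a / 2 * a = Q := by
        have h3 : P * a / 2 * a = P * a ^ 2 / 2 := by ring
        rw [h3, ha2]; field_simp
      rw [this, hQ]; ring
  rw [e] at hrel
  exact ⟨_, hrel⟩

/-- The action on directions. -/
noncomputable def rotU (u : E2) : E2 := pt (u 1) (u 1 - u 0)

theorem rotU_ne {u : E2} (hu : u ≠ 0) : rotU u ≠ 0 := by
  intro h0
  apply hu
  have e0 : rotU u 0 = 0 := by rw [h0]; rfl
  have e1 : rotU u 1 = 0 := by rw [h0]; rfl
  unfold rotU at e0 e1
  rw [pt0] at e0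
  rw [pt1] at e1
  apply ext2
  · change u 0 = 0; linarith
  · exact e0

theorem rotU_six (u : E2) : rotU (rotU (rotU (rotU (rotU (rotU u))))) = u := by
  apply ext2 <;> simp [rotU]

theorem rel_rotU {u : E2} (h : ∃ m, Rel u m) : ∃ m, Rel (rotU u) m := by
  obtain ⟨m, hm⟩ := h
  exact ⟨S m, hm.rot⟩

theorem all_rel (u : E2) (hu : u ≠ 0) : ∃ m, Rel u m := by
  have n1 := rotU_ne hu
  have n2 := rotU_ne n1
  have n3 := rotU_ne n2
  have n4 := rotU_ne n3
  have n5 := rotU_ne n4
  rw [← rotU_six u]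
  rcases le_total (2 * u 1) (u 0) with h1 | h1
  · rcases le_total (2 * u 0) (u 1) with h2 | h2
    · -- sector 0
      rw [rotU_six]
      exact sector_rel u h1 h2 hu
    · rcases le_total 0 (u 0 + u 1) with h3 | h3
      · -- sector 2
        refine rel_rotU (rel_rotU (rel_rotU (rel_rotU (sector_rel _ ?_ ?_ n2)))) <;>
          simp only [rotU, pt0, pt1] <;> linarith
      · -- sector 1
        refine rel_rotU (rel_rotU (rel_rotU (rel_rotU (rel_rotU (sector_rel _ ?_ ?_ n1))))) <;>
          simp only [rotU, pt0, pt1] <;> linarith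
  · rcases le_total (2 * u 0) (u 1) with h2 | h2
    · rcases le_total 0 (u 0 + u 1) with h3 | h3
      · -- sector 4
        refine rel_rotU (rel_rotU (sector_rel _ ?_ ?_ n4)) <;>
          simp only [rotU, pt0, pt1] <;> linarith
      · -- sector 5
        refine rel_rotU (sector_rel _ ?_ ?_ n5) <;>
          simp only [rotU, pt0, pt1] <;> linarith
    · -- sector 3
      refine rel_rotU (rel_rotU (rel_rotU (sector_rel _ ?_ ?_ n3))) <;>
        simp only [rotU, pt0, pt1] <;> linarith

/-- Points of the basic arc. -/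
theorem arc_rel (m : E2) (hm : m ∈ R0) (he : (1 + m 0) * (1 + m 1) = 1 / 2) :
    ∃ u, Rel u m := by
  obtain ⟨⟨hk0, hk1, hk2⟩, h1, h2, h3, h4, h5, h6⟩ := hm
  rw [abs_le] at hk0 hk1 hk2
  set a := 2 * (1 + m 0) with ha
  set b := 2 * (1 + m 1) with hb
  have hab : a * b = 2 := by rw [ha, hb]; linarith
  have ha0 : 0 ≤ a := by linarith
  have hb0 : 0 ≤ b := by linarith
  have hapos : 0 < a := by
    rcases ha0.lt_or_eq with h | h
    · exact h
    · rw [← h, zero_mul] at hab; norm_num at hab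
  have hbpos : 0 < b := by
    rcases hb0.lt_or_eq with h | h
    · exact h
    · rw [← h, mul_zero] at hab; norm_num at hab
  have ha2 : a ≤ 2 := by
    have e : (2 - a) ^ 3 = a * ((4 - a) * (a + b - 2) - 2) := by
      linear_combination -(4 - a) * hab
    have e2 : (4 - a) * (a + b - 2) - 2 = 4 * ((1 + m 0 + m 1) * (1 - m 0)) - 2 := by
      rw [ha, hb]; ring
    have h7 : 0 ≤ (2 - a) ^ 3 := by
      rw [e, e2]
      apply mul_nonneg ha0
      linarith
    by_contra hcon
    push Not at hcon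
    have h8 : 0 < (a - 2) ^ 3 := pow_pos (by linarith) 3
    have h9 : (2 - a) ^ 3 = -(a - 2) ^ 3 := by ring
    linarith
  have hb2 : b ≤ 2 := by
    have e : (2 - b) ^ 3 = b * ((4 - b) * (a + b - 2) - 2) := by
      linear_combination -(4 - b) * hab
    have e2 : (4 - b) * (a + b - 2) - 2 = 4 * ((1 - m 1) * (1 + m 0 + m 1)) - 2 := by
      rw [ha, hb]; ring
    have h7 : 0 ≤ (2 - b) ^ 3 := by
      rw [e, e2]
      apply mul_nonneg hb0
      linarith
    by_contra hcon
    push Not at hcon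
    have h8 : 0 < (b - 2) ^ 3 := pow_pos (by linarith) 3
    have h9 : (2 - b) ^ 3 = -(b - 2) ^ 3 := by ring
    linarith
  have ha1 : 1 ≤ a := by nlinarith
  have hb1 : 1 ≤ b := by nlinarith
  have hrel := base_rel hab ha1 hb1 (lam := 1) one_pos
  have e : pt (a / 2 - 1) (b / 2 - 1) = m := by
    apply ext2
    · rw [pt0, ha]; ring
    · rw [pt1, hb]; ring
  rw [e] at hrel
  exact ⟨_, hrel⟩

theorem rel_S {m : E2} (h : ∃ u, Rel u m) : ∃ u, Rel u (S m) := by
  obtain ⟨u, hu⟩ := h
  exact ⟨_, hu.rot⟩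

theorem S_six (m : E2) : S (S (S (S (S (S m))))) = m := by
  apply ext2 <;> simp [S_apply]

theorem all_arc (m : E2) (hm : m ∈ M0) : ∃ u, Rel u m := by
  have m1 := S_R0 hm.1
  have m2 := S_R0 m1
  have m3 := S_R0 m2
  have m4 := S_R0 m3
  have m5 := S_R0 m4
  rw [← S_six m]
  rcases hm.2 with h | h | h | h | h | h
  · rw [S_six]
    exact arc_rel m hm.1 h
  · -- e2 ↦ e6 ↦ e1: two steps
    refine rel_S (rel_S (rel_S (rel_S (arc_rel _ m2 ?_))))
    simp only [S_apply, pt0, pt1]; linarith
  · -- e3 ↦ e4 ↦ e2 ↦ e6 ↦ e1: four steps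
    refine rel_S (rel_S (arc_rel _ m4 ?_))
    simp only [S_apply, pt0, pt1]; linarith
  · -- e4 ↦ e2 ↦ e6 ↦ e1: three steps
    refine rel_S (rel_S (rel_S (arc_rel _ m3 ?_)))
    simp only [S_apply, pt0, pt1]; linarith
  · -- e5 ↦ e3 ↦ e4 ↦ e2 ↦ e6 ↦ e1: five steps
    refine rel_S (arc_rel _ m5 ?_)
    simp only [S_apply, pt0, pt1]; linarith
  · -- e6 ↦ e1: one step
    refine rel_S (rel_S (rel_S (rel_S (rel_S (arc_rel _ m1 ?_)))))
    simp only [S_apply, pt0, pt1]; linarith

/-! ### The volume of the hexagon -/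

theorem K0_vol : ENNReal.ofReal (1 / 2) < volume K0 := by
  -- the hexagon contains the preimage of the triangle with legs two
  have hsub : Φ ⁻¹' (tri 2 2 \ tri 1 1 : Set (ℝ × ℝ)) ⊆ K0 := by
    rintro x ⟨⟨h1, h2, h3⟩, h4⟩
    simp only [Φ] at h1 h2 h3
    have h5 : 1 < (x 0 + 1) + (x 1 + 1) := by
      by_contra hcon
      push Not at hcon
      apply h4
      refine ⟨h1, h2, ?_⟩
      simp only [Φ]
      linarith
    refine ⟨?_, ?_, ?_⟩ <;> rw [abs_le] <;> constructor <;> linarith
  have hm : MeasurableSet (tri 2 2 \ tri 1 1 : Set (ℝ × ℝ)) :=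
    (tri_closed 2 2).measurableSet.diff (tri_closed 1 1).measurableSet
  have h1 := measure_mono (μ := (volume : Measure E2)) hsub
  rw [Φ_mp.measure_preimage hm.nullMeasurableSet] at h1
  refine lt_of_lt_of_le ?_ h1
  have hint : (∫ _p in (tri 2 2 \ tri 1 1 : Set (ℝ × ℝ)), (1 : ℝ)) = 3 / 2 := by
    rw [setIntegral_sdiff (tri_closed 1 1).measurableSet
      (continuous_const.continuousOn.integrableOn_compact (tri_compact (by norm_num)
        (by norm_num))) (tri_one_sub (by norm_num) (by norm_num)),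
      tri_area (by norm_num) (by norm_num), tri_area one_pos one_pos]
    norm_num
  rw [setIntegral_const, smul_eq_mul, mul_one] at hint
  have hfin : volume (tri 2 2 \ tri 1 1 : Set (ℝ × ℝ)) ≠ ⊤ :=
    ne_top_of_le_ne_top (tri_compact (a := 2) (b := 2) (by norm_num)
      (by norm_num)).measure_ne_top (measure_mono sdiff_subset)
  rw [← ENNReal.ofReal_toReal hfin]
  change _ < ENNReal.ofReal (volume.real _)
  rw [hint, ENNReal.ofReal_lt_ofReal_iff (by norm_num)]
  norm_num

/-! ### Uniqueness of the level -/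

theorem level_aux (u : E2) (s t : ℝ) (hst : s < t)
    (hs : volume (K0 ∩ halfSpace u s) = ENNReal.ofReal (1 / 2))
    (ht : volume (K0 ∩ halfSpace u t) = ENNReal.ofReal (1 / 2)) : False := by
  have hhalf : (0 : ENNReal) < ENNReal.ofReal (1 / 2) := ENNReal.ofReal_pos.mpr (by norm_num)
  -- a point above the level `t`
  obtain ⟨y, hyK, hyt⟩ : ∃ y ∈ K0, t ≤ inner ℝ u y := by
    by_contra hcon
    push Not at hcon
    have : K0 ∩ halfSpace u t = ∅ := by
      ext x
      simp only [mem_inter_iff, mem_empty_iff_false, iff_false]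
      rintro ⟨h1, h2⟩
      exact absurd h2 (not_le.mpr (hcon x h1))
    rw [this, measure_empty] at ht
    exact hhalf.ne ht
  -- a point below the level `s`
  obtain ⟨z, hzK, hzs⟩ : ∃ z ∈ K0, inner ℝ u z < s := by
    by_contra hcon
    push Not at hcon
    have : K0 ∩ halfSpace u s = K0 := by
      ext x
      simp only [mem_inter_iff, and_iff_left_iff_imp]
      exact fun h => hcon x h
    rw [this] at hs
    exact absurd hs K0_vol.ne'
  have hcl : K0 ⊆ closure (interior K0) := by
    have := K0_convex.closure_interior_eq_closure_of_nonempty_interior ⟨0, K0_interior⟩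
    rw [this]
    exact subset_closure
  set r := (s + t) / 2 with hr
  have hcont : Continuous fun x : E2 => inner ℝ u x := by fun_prop
  obtain ⟨y', hy', hyr⟩ : ∃ y' ∈ interior K0, r < inner ℝ u y' := by
    have ho : IsOpen {x : E2 | r < inner ℝ u x} := isOpen_lt continuous_const hcont
    obtain ⟨w, hw1, hw2⟩ := mem_closure_iff.mp (hcl hyK) _ ho
      (by change r < inner ℝ u y; linarith)
    exact ⟨w, hw2, hw1⟩
  obtain ⟨z', hz', hzr⟩ : ∃ z' ∈ interior K0, inner ℝ u z' < r := by
    have ho : IsOpen {x : E2 | inner ℝ u x < r} := isOpen_lt hcont continuous_const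
    obtain ⟨w, hw1, hw2⟩ := mem_closure_iff.mp (hcl hzK) _ ho
      (by change inner ℝ u z < r; linarith)
    exact ⟨w, hw2, hw1⟩
  -- a point of the interior at the level `r`
  set α := (r - inner ℝ u z') / (inner ℝ u y' - inner ℝ u z') with hα
  have hden : 0 < inner ℝ u y' - inner ℝ u z' := by linarith
  have hα0 : 0 ≤ α := by
    rw [hα]; exact div_nonneg (by linarith) hden.le
  have hα1 : α ≤ 1 := by
    rw [hα, div_le_one hden]; linarith
  have hx : (1 - α) • z' + α • y' ∈ interior K0 :=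
    K0_convex.interior hz' hy' (by linarith) hα0 (by ring)
  have hxr : inner ℝ u ((1 - α) • z' + α • y') = r := by
    rw [inner_add_right, real_inner_smul_right, real_inner_smul_right]
    have : α * (inner ℝ u y' - inner ℝ u z') = r - inner ℝ u z' := by
      rw [hα, div_mul_cancel₀ _ hden.ne']
    linarith
  set U : Set E2 := interior K0 ∩ {x | s < inner ℝ u x ∧ inner ℝ u x < t} with hU
  have hUo : IsOpen U := by
    refine isOpen_interior.inter ?_
    exact (isOpen_lt continuous_const hcont).inter (isOpen_lt hcont continuous_const)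
  have hUne : U.Nonempty := ⟨_, hx, by
    simp only [mem_ofPred_eq]
    rw [hxr]
    constructor <;> linarith⟩
  have hUpos : 0 < volume U := hUo.measure_pos _ hUne
  have hUd : Disjoint (K0 ∩ halfSpace u t) U := by
    rw [Set.disjoint_left]
    rintro x ⟨_, h1⟩ ⟨_, _, h2⟩
    exact absurd h1 (not_le.mpr h2)
  have hUs : (K0 ∩ halfSpace u t) ∪ U ⊆ K0 ∩ halfSpace u s := by
    rintro x (⟨h1, h2⟩ | ⟨h1, h2, _⟩)
    · exact ⟨h1, le_trans hst.le h2⟩
    · exact ⟨interior_subset h1, h2.le⟩
  have h1 := measure_mono (μ := (volume : Measure E2)) hUs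
  rw [measure_union hUd hUo.measurableSet, hs, ht] at h1
  have h2 : ENNReal.ofReal (1 / 2) < ENNReal.ofReal (1 / 2) + volume U :=
    ENNReal.lt_add_right ENNReal.ofReal_ne_top hUpos.ne'
  exact absurd h1 (not_le.mpr h2)

theorem level_unique (u : E2) (s t : ℝ)
    (hs : volume (K0 ∩ halfSpace u s) = ENNReal.ofReal (1 / 2))
    (ht : volume (K0 ∩ halfSpace u t) = ENNReal.ofReal (1 / 2)) : s = t := by
  rcases lt_trichotomy s t with h | h | h
  · exact (level_aux u s t h hs ht).elim
  · exact h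
  · exact (level_aux u t s h ht hs).elim

/-! ### The two bodies -/

theorem adm_iff (H : Set E2) : Admissible K0 (1 / 2) H ↔
    ∃ u m, Rel u m ∧ H = halfSpace u (inner ℝ u m) := by
  constructor
  · rintro ⟨u, t, hu, rfl, hvol⟩
    obtain ⟨m, hm⟩ := all_rel u hu
    refine ⟨u, m, hm, ?_⟩
    rw [level_unique u t _ hvol hm.vol]
  · rintro ⟨u, m, hm, rfl⟩
    exact ⟨u, _, hm.ne, rfl, hm.vol⟩

theorem buoyancy_eq : buoyancy K0 (1 / 2) = (fun x : E2 => (4 / 3 : ℝ) • x) '' convexHull ℝ M0 := by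
  have h1 : {c | ∃ H, Admissible K0 (1 / 2) H ∧ c = centroid (K0 ∩ H)} =
      (fun x : E2 => (4 / 3 : ℝ) • x) '' M0 := by
    ext c
    constructor
    · rintro ⟨H, hH, rfl⟩
      obtain ⟨u, m, hm, rfl⟩ := (adm_iff H).mp hH
      exact ⟨m, hm.mem, hm.cen.symm⟩
    · rintro ⟨m, hm, rfl⟩
      obtain ⟨u, hu⟩ := all_arc m hm
      exact ⟨_, (adm_iff _).mpr ⟨u, m, hu, rfl⟩, hu.cen.symm⟩
  unfold buoyancy
  rw [h1]
  have h2 := (LinearMap.lsmul ℝ E2 (4 / 3 : ℝ)).image_convexHull M0
  exact h2.symm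

theorem flotation_eq : flotation K0 (1 / 2) = convexHull ℝ M0 := by
  have hcl : IsClosed (convexHull ℝ M0) := (isCompact_convexHull_of_isCompact M0_compact).isClosed
  apply Subset.antisymm
  · intro x hx
    by_contra hcon
    obtain ⟨f, s, hfs, hsx⟩ :=
      geometric_hahn_banach_closed_point (convex_convexHull ℝ M0) hcl hcon
    let w : E2 := (InnerProductSpace.toDual ℝ E2).symm f
    have hw : ∀ y, inner ℝ w y = f y := by
      intro y
      simp [w, InnerProductSpace.toDual_symm_apply]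
    have hw0 : w ≠ 0 := by
      intro h
      obtain ⟨m, hm⟩ := all_rel (pt 1 0) (by
        intro h0
        have : pt 1 0 0 = 0 := by rw [h0]; rfl
        rw [pt0] at this; norm_num at this)
      have h1 := hfs m (subset_convexHull ℝ _ hm.mem)
      rw [← hw, h, inner_zero_left] at h1
      rw [← hw, h, inner_zero_left] at hsx
      linarith
    obtain ⟨m, hm⟩ := all_rel w hw0
    have h1 := hfs m (subset_convexHull ℝ _ hm.mem)
    have h2 := hx (halfSpace w (inner ℝ w m)) ((adm_iff _).mpr ⟨w, m, hm, rfl⟩)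
    have h3 : closure (K0 \ halfSpace w (inner ℝ w m)) ⊆ {y | inner ℝ w y ≤ inner ℝ w m} := by
      apply closure_minimal
      · rintro y ⟨_, hy⟩
        have hy' : ¬ (inner ℝ w m ≤ inner ℝ w y) := hy
        exact (not_le.mp hy').le
      · exact isClosed_le (by fun_prop) continuous_const
    have h4 : inner ℝ w x ≤ inner ℝ w m := h3 h2
    rw [hw, hw] at h4
    linarith
  · intro x hx H hH
    obtain ⟨u, m, hm, rfl⟩ := (adm_iff H).mp hH
    -- a point strictly below the level
    obtain ⟨z, hzK, hzs⟩ : ∃ z ∈ K0, inner ℝ u z < inner ℝ u m := by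
      by_contra hcon
      push Not at hcon
      have : K0 ∩ halfSpace u (inner ℝ u m) = K0 := by
        ext x
        simp only [mem_inter_iff, and_iff_left_iff_imp]
        exact fun h => hcon x h
      have h1 := hm.vol
      rw [this] at h1
      exact absurd h1 K0_vol.ne'
    have hconv : Convex ℝ (K0 \ halfSpace u (inner ℝ u m)) := by
      have : K0 \ halfSpace u (inner ℝ u m) = K0 ∩ {y | inner ℝ u y < inner ℝ u m} := by
        ext y
        simp only [mem_sdiff, halfSpace, mem_ofPred_eq, not_le, mem_inter_iff]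
      rw [this]
      refine K0_convex.inter ?_
      intro y hy w hw a b ha hb hab
      simp only [mem_ofPred_eq] at hy hw ⊢
      rw [inner_add_right, real_inner_smul_right, real_inner_smul_right]
      rcases ha.lt_or_eq with h | h
      · have h1 := mul_lt_mul_of_pos_left hy h
        have h2 := mul_le_mul_of_nonneg_left hw.le hb
        have h3 : a * inner ℝ u m + b * inner ℝ u m = inner ℝ u m := by
          rw [← add_mul, hab, one_mul]
        linarith
      · have hb1 : b = 1 := by linarith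
        rw [← h, hb1]; linarith
    have hsub : M0 ⊆ closure (K0 \ halfSpace u (inner ℝ u m)) := by
      intro y hy
      have hyle := hm.sup y hy.1
      have hseg : openSegment ℝ z y ⊆ K0 \ halfSpace u (inner ℝ u m) := by
        rintro _ ⟨a, b, ha, hb, hab, rfl⟩
        refine ⟨K0_convex hzK hy.1.1 ha.le hb.le hab, ?_⟩
        simp only [halfSpace, mem_ofPred_eq, not_le]
        rw [inner_add_right, real_inner_smul_right, real_inner_smul_right]
        have h1 := mul_lt_mul_of_pos_left hzs ha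
        have h2 := mul_le_mul_of_nonneg_left hyle hb.le
        have h3 : a * inner ℝ u m + b * inner ℝ u m = inner ℝ u m := by
          rw [← add_mul, hab, one_mul]
        linarith
      have h1 : y ∈ closure (openSegment ℝ z y) := by
        rw [closure_openSegment]
        exact right_mem_segment ℝ _ _
      exact closure_mono hseg h1
    exact convexHull_min hsub hconv.closure hx

/-- There is a planar convex body that is not an ellipse but whose body of flotation and body of
buoyancy, for some admissible volume, are homothetic. -/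
theorem result : ∃ K : Set (EuclideanSpace ℝ (Fin 2)), IsConvexBody K ∧ ¬ IsEllipsoid K ∧
    ∃ δ : ℝ, 0 < δ ∧ ENNReal.ofReal δ < volume K ∧
      Homothetic (flotation K δ) (buoyancy K δ) := by
  refine ⟨K0, K0_body, K0_not_ellipsoid, 1 / 2, by norm_num, K0_vol, 0, 4 / 3, by norm_num, ?_⟩
  rw [buoyancy_eq, flotation_eq]
  congr 1
  funext x
  simp

end Pool.Agent.Results.MP_56fddc_gt.Hexagon
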